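import Pool.Agent.TH327.Dim.Torus
import Pool.Agent.TH327.Dim.Inst

/-! # Window sums of the Liouville function with phases from a small set of frequencies -/

set_option autoImplicit false

namespace Pool.Agent.TH823.SF

open Finset
open Pool.Agent.TH327.Dim

/-- covering numbers modulo one of a set of real numbers -/
def Cover (A : Set ℝ) (C s : ℝ) : Prop :=
  ∀ n : ℕ, 1 ≤ n → ∃ S : Finset ℝ, (S.card : ℝ) ≤ C * (n : ℝ) ^ s ∧
    ∀ α ∈ A, ∃ y ∈ S, ∃ k : ℤ, |α - y - k| ≤ 1 / n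

/-- the window sum with phase -/
noncomputable def wsum (α : ℝ) (n H : ℕ) : ℂ :=
  ∑ h ∈ Icc 1 H, ((-1 : ℂ) ^ (ArithmeticFunction.cardFactors (n + h))) *
    Complex.exp (2 * (Real.pi : ℂ) * Complex.I * (h : ℂ) * (α : ℂ))

lemma cov_of_cover {A : Set ℝ} {C s : ℝ} (h : Cover A C s) :
    Cov ((fun a : ℝ => (a : UnitAddCircle)) '' A) (max C 0) (max s 0) := by
  classical
  intro n hn
  obtain ⟨S, hS, hc⟩ := h n hn
  refine ⟨S.image (fun a : ℝ => (a : UnitAddCircle)), ?_, ?_⟩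
  · have h1 : ((S.image (fun a : ℝ => (a : UnitAddCircle))).card : ℝ) ≤ S.card := by exact_mod_cast card_image_le
    refine h1.trans (hS.trans ?_)
    have hnr : (1 : ℝ) ≤ n := by exact_mod_cast hn
    calc C * (n : ℝ) ^ s ≤ max C 0 * (n : ℝ) ^ s := mul_le_mul_of_nonneg_right (le_max_left _ _) (by positivity)
      _ ≤ max C 0 * (n : ℝ) ^ (max s 0) := by
          apply mul_le_mul_of_nonneg_left _ (le_max_right _ _)
          exact Real.rpow_le_rpow_of_exponent_le hnr (le_max_left _ _)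
  · rintro _ ⟨a, ha, rfl⟩
    obtain ⟨y, hy, k, hk⟩ := hc a ha
    refine ⟨(y : UnitAddCircle), mem_image_of_mem _ hy, ?_⟩
    have h2 : ((a : UnitAddCircle) - (y : UnitAddCircle)) = ((a - y : ℝ) : UnitAddCircle) := by
      rfl
    show ‖(a : UnitAddCircle) - (y : UnitAddCircle)‖ ≤ 1 / n
    rw [h2, UnitAddCircle.norm_eq]
    exact (round_le _ k).trans hk

lemma phase (α : ℝ) (n : ℕ) : ((fourier (n : ℤ) (α : UnitAddCircle) : ℂ)) =
    Complex.exp (2 * (Real.pi : ℂ) * Complex.I * (n : ℂ) * (α : ℂ)) := by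
  rw [fourier_coe_apply]
  congr 1
  push_cast
  ring

lemma asum (α : ℝ) (x H : ℕ) : ‖∑ n ∈ Ioc x (x + H), laf n * (fourier (n : ℤ) (α : UnitAddCircle) : ℂ)‖ =
    ‖wsum α x H‖ := by
  have h1 : Ioc x (x + H) = (Icc 1 H).image (fun h => x + h) := by
    ext m
    simp only [mem_Ioc, mem_image, mem_Icc]
    constructor
    · intro h; exact ⟨m - x, by omega, by omega⟩
    · rintro ⟨j, hj, rfl⟩; omega
  rw [h1, sum_image fun a _ b _ hab => by omega]
  have h2 : ∑ h ∈ Icc 1 H, laf (x + h) * (fourier ((x + h : ℕ) : ℤ) (α : UnitAddCircle) : ℂ) =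
      Complex.exp (2 * (Real.pi : ℂ) * Complex.I * (x : ℂ) * (α : ℂ)) * wsum α x H := by
    unfold wsum
    rw [mul_sum]
    refine sum_congr rfl fun h _ => ?_
    rw [phase]
    have e : (2 * (Real.pi : ℂ) * Complex.I * ((x + h : ℕ) : ℂ) * (α : ℂ)) =
        2 * (Real.pi : ℂ) * Complex.I * (x : ℂ) * (α : ℂ) + 2 * (Real.pi : ℂ) * Complex.I * (h : ℂ) * (α : ℂ) := by
      push_cast; ring
    rw [e, Complex.exp_add]
    unfold laf
    ring
  rw [h2, norm_mul]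
  have h3 : ‖Complex.exp (2 * (Real.pi : ℂ) * Complex.I * (x : ℂ) * (α : ℂ))‖ = 1 := by
    have e : 2 * (Real.pi : ℂ) * Complex.I * (x : ℂ) * (α : ℂ) = ((2 * Real.pi * x * α : ℝ) : ℂ) * Complex.I := by
      push_cast; ring
    rw [e, Complex.norm_exp_ofReal_mul_I]
  rw [h3, one_mul]

theorem base (C s : ℝ) (hs : s < 1 / 2) (ε : ℝ) (hε : 0 < ε) : ∃ H0 : ℕ, ∀ H : ℕ, H0 ≤ H → ∀ X : ℕ, H ≤ X →
    ∀ A : Set ℝ, Cover A C s → ∀ α : ℕ → ℝ, (∀ x, α x ∈ A) → ∑ x ∈ range X, ‖wsum (α x) x H‖ ≤ ε * H * X := by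
  have hF : ∀ h ∈ ({laf} : Set (ℕ → ℂ)), ∀ n, ‖h n‖ ≤ 1 := by
    intro h hh n
    rw [Set.mem_singleton_iff] at hh
    rw [hh]; exact laf_le n
  obtain ⟨H0, h0⟩ := win hF (good_lam (C := max C 0) (s := max s 0) (le_max_right _ _) (le_max_right _ _)
    (max_lt hs (by norm_num))) ε hε
  refine ⟨H0, fun H hH X hX A hA α hα => ?_⟩
  have h1 := h0 H hH X hX _ (cov_of_cover hA) laf rfl (fun x m => 1 * (fourier m (α x : UnitAddCircle) : ℂ))
    (fun x m => by rw [one_mul, Pool.Agent.TH327.Thin.norm_fourier_apply])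
    (fun x => specIn_char (Set.mem_image_of_mem _ (hα x)) 1)
  refine le_trans (le_of_eq (sum_congr rfl fun x _ => ?_)) h1
  rw [← asum]
  congr 1
  exact sum_congr rfl fun n _ => by rw [one_mul]

/-- the supremum over the set of frequencies -/
noncomputable def sw (A : Set ℝ) (n H : ℕ) : ℝ := ⨆ α : A, ‖wsum (α : ℝ) n H‖

lemma wsum_le (α : ℝ) (n H : ℕ) : ‖wsum α n H‖ ≤ H := by
  rw [← asum]
  refine (norm_sum_le _ _).trans ?_
  have : ∑ m ∈ Ioc n (n + H), ‖laf m * (fourier (m : ℤ) (α : UnitAddCircle) : ℂ)‖ ≤ ∑ m ∈ Ioc n (n + H), (1 : ℝ) := by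
    refine sum_le_sum fun m _ => ?_
    rw [norm_mul, Pool.Agent.TH327.Thin.norm_fourier_apply, mul_one]
    exact laf_le m
  refine this.trans (le_of_eq ?_)
  simp

lemma sw_bdd (A : Set ℝ) (n H : ℕ) : BddAbove (Set.range fun α : A => ‖wsum (α : ℝ) n H‖) :=
  ⟨H, by rintro _ ⟨α, rfl⟩; exact wsum_le _ _ _⟩

lemma sw_nonneg (A : Set ℝ) (n H : ℕ) : 0 ≤ sw A n H := Real.iSup_nonneg fun _ => norm_nonneg _

lemma wsum_shift (α : ℝ) (n k H : ℕ) : ‖wsum α n H‖ ≤ ‖wsum α (n + k) H‖ + 2 * k := by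
  rw [← asum, ← asum]
  obtain ⟨f, hf⟩ : ∃ f : ℕ → ℂ, f = fun m => laf m * (fourier (m : ℤ) (α : UnitAddCircle) : ℂ) := ⟨_, rfl⟩
  have hf1 : ∀ m, ‖f m‖ ≤ 1 := by
    intro m
    rw [hf]
    show ‖laf m * (fourier (m : ℤ) (α : UnitAddCircle) : ℂ)‖ ≤ 1
    rw [norm_mul, Pool.Agent.TH327.Thin.norm_fourier_apply, mul_one]
    exact laf_le m
  have e : ∀ x, ∑ n ∈ Ioc x (x + H), laf n * (fourier (n : ℤ) (α : UnitAddCircle) : ℂ) = ∑ n ∈ Ioc x (x + H), f n := by
    intro x; rw [hf]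
  rw [e, e]
  have hk : ∀ a, ‖∑ m ∈ Ioc a (a + k), f m‖ ≤ k := by
    intro a
    refine (norm_sum_le _ _).trans ((sum_le_sum fun m _ => hf1 m).trans (le_of_eq ?_))
    simp
  have e1 := Finset.sum_Ioc_consecutive f (show n ≤ n + k by omega) (show n + k ≤ n + k + H by omega)
  have e2 := Finset.sum_Ioc_consecutive f (show n ≤ n + H by omega) (show n + H ≤ n + H + k by omega)
  have e3 : n + k + H = n + H + k := by omega
  rw [e3] at e1
  have e4 : ∑ m ∈ Ioc n (n + H), f m = ∑ m ∈ Ioc (n + k) (n + k + H), f m + ∑ m ∈ Ioc n (n + k), f m -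
      ∑ m ∈ Ioc (n + H) (n + H + k), f m := by
    rw [e3]
    linear_combination e2 - e1
  rw [e4]
  refine (norm_sub_le _ _).trans ?_
  have := norm_add_le (∑ m ∈ Ioc (n + k) (n + k + H), f m) (∑ m ∈ Ioc n (n + k), f m)
  linarith [hk n, hk (n + H)]

lemma sw_shift (A : Set ℝ) (n k H : ℕ) : sw A n H ≤ sw A (n + k) H + 2 * k := by
  rcases A.eq_empty_or_nonempty with h | h
  · subst h
    have h0 : ∀ n, sw (∅ : Set ℝ) n H = 0 := fun n => Real.iSup_of_isEmpty _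
    rw [h0, h0]; positivity
  · have : Nonempty A := h.to_subtype
    refine ciSup_le fun α => ?_
    refine (wsum_shift (α : ℝ) n k H).trans ?_
    have := le_ciSup (sw_bdd A (n + k) H) α
    unfold sw
    linarith

/-- the mean over all starting points -/
theorem avg (C s : ℝ) (hs : s < 1 / 2) (ε : ℝ) (hε : 0 < ε) : ∃ H0 : ℕ, ∀ H : ℕ, H0 ≤ H → ∀ X : ℕ, H ≤ X →
    ∀ A : Set ℝ, Cover A C s → ∑ x ∈ range X, sw A x H ≤ ε * H * X := by
  obtain ⟨H0, h0⟩ := base C s hs (ε / 2) (by positivity)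
  refine ⟨max H0 1, fun H hH X hX A hA => ?_⟩
  have hH0 : H0 ≤ H := (le_max_left _ _).trans hH
  have hH1 : 1 ≤ H := (le_max_right _ _).trans hH
  have hHr : (0 : ℝ) < H := by exact_mod_cast hH1
  rcases A.eq_empty_or_nonempty with h | h
  · subst h
    have h0 : ∀ n, sw (∅ : Set ℝ) n H = 0 := fun n => Real.iSup_of_isEmpty _
    simp only [h0, sum_const_zero]
    positivity
  · have hne : Nonempty A := h.to_subtype
    have hch : ∀ x, ∃ α : ℝ, α ∈ A ∧ sw A x H ≤ ‖wsum α x H‖ + ε / 2 * H := by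
      intro x
      have hpos : (0 : ℝ) < ε / 2 * H := by positivity
      obtain ⟨α, hα⟩ := exists_lt_of_lt_ciSup (show sw A x H - ε / 2 * H < ⨆ α : A, ‖wsum (α : ℝ) x H‖ by
        show sw A x H - ε / 2 * H < sw A x H
        linarith)
      exact ⟨α, α.2, by linarith⟩
    choose α hα1 hα2 using hch
    have h1 := h0 H hH0 X hX A hA α hα1
    calc ∑ x ∈ range X, sw A x H ≤ ∑ x ∈ range X, (‖wsum (α x) x H‖ + ε / 2 * H) := sum_le_sum fun x _ => hα2 x
      _ = ∑ x ∈ range X, ‖wsum (α x) x H‖ + X * (ε / 2 * H) := by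
          rw [sum_add_distrib, sum_const, card_range, nsmul_eq_mul]
      _ ≤ ε / 2 * H * X + X * (ε / 2 * H) := add_le_add h1 le_rfl
      _ = ε * H * X := by ring

/-- a pointwise bound near the origin -/
lemma ptw {A : Set ℝ} {H : ℕ} {ε δ : ℝ} (hδ : 0 < δ) (hδ1 : δ ≤ 1) (hH : 1 ≤ H) (hε : 0 ≤ ε)
    (h : ∑ x ∈ range (2 * H), sw A x H ≤ ε * H * (2 * H : ℕ)) (n : ℕ) (hn : n ≤ H) :
    sw A n H ≤ (2 * ε / δ + 2 * δ) * H + 2 := by
  obtain ⟨K, hK⟩ : ∃ K : ℕ, K = ⌈δ * H⌉₊ := ⟨_, rfl⟩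
  have hHr : (1 : ℝ) ≤ H := by exact_mod_cast hH
  have hK0 : δ * H ≤ K := by rw [hK]; exact Nat.le_ceil _
  have hK1 : (K : ℝ) < δ * H + 1 := by rw [hK]; exact Nat.ceil_lt_add_one (by positivity)
  have hKH : K ≤ H := by
    rw [hK]; apply Nat.ceil_le.2
    nlinarith
  have hKp : (0 : ℝ) < K := lt_of_lt_of_le (by positivity) hK0
  have h1 : (K : ℝ) * sw A n H ≤ ∑ k ∈ range K, (sw A (n + k) H + 2 * K) := by
    calc (K : ℝ) * sw A n H = ∑ k ∈ range K, sw A n H := by rw [sum_const, card_range, nsmul_eq_mul]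
      _ ≤ _ := by
          refine sum_le_sum fun k hk => ?_
          rw [mem_range] at hk
          have hk' : (k : ℝ) ≤ K := by exact_mod_cast hk.le
          linarith [sw_shift A n k H]
  have h2 : ∑ k ∈ range K, sw A (n + k) H ≤ ∑ x ∈ range (2 * H), sw A x H := by
    have e : ∑ k ∈ range K, sw A (n + k) H = ∑ x ∈ (range K).image (fun k => n + k), sw A x H := by
      rw [sum_image fun a _ b _ hab => by omega]
    rw [e]
    apply sum_le_sum_of_subset_of_nonneg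
    · intro x hx
      simp only [mem_image, mem_range] at hx ⊢
      obtain ⟨k, hk, rfl⟩ := hx
      omega
    · intro x _ _; exact sw_nonneg _ _ _
  rw [sum_add_distrib, sum_const, card_range, nsmul_eq_mul] at h1
  have h3 : (K : ℝ) * sw A n H ≤ ε * H * (2 * H) + K * (2 * K) := by
    have := h2.trans h
    push_cast at this
    linarith
  have h4 : sw A n H ≤ ε * H * (2 * H) / K + 2 * K := by
    rw [← mul_le_mul_iff_right₀ hKp]
    refine h3.trans (le_of_eq ?_)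
    field_simp
  have h5 : ε * H * (2 * H) / K ≤ 2 * ε / δ * H := by
    rw [div_le_iff₀ hKp]
    have : 2 * ε / δ * H * (δ * H) ≤ 2 * ε / δ * H * K := mul_le_mul_of_nonneg_left hK0 (by positivity)
    refine le_trans (le_of_eq ?_) this
    field_simp
  nlinarith

end Pool.Agent.TH823.SF
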