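import Pool.Agent.TH823.SF.Nbh

/-! # Logarithmic averages -/

set_option autoImplicit false

namespace Pool.Agent.TH823.SF

open Finset

/-- partial summation -/
lemma part {S : ℕ → ℝ} {c : ℝ} (hc : 0 ≤ c) (h : ∀ t : ℕ, 1 ≤ t → ∑ n ∈ Icc 1 t, S n ≤ c * t)
    (h0 : ∀ n, 0 ≤ S n) {A : ℕ} (hA : 1 ≤ A) :
    ∀ B : ℕ, A ≤ B → ∑ n ∈ Icc A B, S n / n ≤ (∑ n ∈ Icc 1 B, S n) / B + c * (Real.log B - Real.log A) := by
  intro B hB
  induction B, hB using Nat.le_induction with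
  | base =>
    rw [Icc_self, sum_singleton, sub_self, mul_zero, add_zero]
    apply div_le_div_of_nonneg_right _ (Nat.cast_nonneg A)
    exact single_le_sum (fun n _ => h0 n) (mem_Icc.2 ⟨hA, le_rfl⟩)
  | succ B hB ih =>
    have hB1 : 1 ≤ B := hA.trans hB
    have hBr : (0 : ℝ) < B := by exact_mod_cast hB1
    rw [Finset.sum_Icc_succ_top (by omega), Finset.sum_Icc_succ_top (by omega)]
    have h1 := h B hB1
    have hl : 1 / ((B : ℝ) + 1) ≤ Real.log ((B : ℝ) + 1) - Real.log B := by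
      rw [← Real.log_div (by positivity) (by positivity)]
      have := Real.one_sub_inv_le_log_of_pos (show (0 : ℝ) < ((B : ℝ) + 1) / B by positivity)
      refine le_trans (le_of_eq ?_) this
      field_simp
      ring
    obtain ⟨P, hP⟩ : ∃ P, P = ∑ n ∈ Icc 1 B, S n := ⟨_, rfl⟩
    rw [← hP] at h1 ih ⊢
    push_cast
    have h2 : P / B - P / ((B : ℝ) + 1) ≤ c * (1 / ((B : ℝ) + 1)) := by
      have : P / B - P / ((B : ℝ) + 1) = P / B * (1 / ((B : ℝ) + 1)) := by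
        field_simp
        ring
      rw [this]
      apply mul_le_mul_of_nonneg_right _ (by positivity)
      rw [div_le_iff₀ hBr]
      exact h1
    have h3 : c * (1 / ((B : ℝ) + 1)) ≤ c * (Real.log ((B : ℝ) + 1) - Real.log B) := mul_le_mul_of_nonneg_left hl hc
    have h4 : (P + S (B + 1)) / ((B : ℝ) + 1) = P / ((B : ℝ) + 1) + S (B + 1) / ((B : ℝ) + 1) := add_div _ _ _
    rw [h4]
    linarith

/-- logarithmic averages over `[X / ω, X]` -/
theorem logavg (C s : ℝ) (hs : s < 1 / 2) (ε : ℝ) (hε : 0 < ε) : ∃ H0 : ℕ, ∀ H : ℕ, H0 ≤ H →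
    ∀ A : Set ℝ, CoverTo H A C s → ∀ ω X : ℝ, (H : ℝ) ≤ ω → ω ≤ X →
      ∑ n ∈ Icc ⌈X / ω⌉₊ ⌊X⌋₊, sw A n H / n ≤ ε * H * Real.log ω := by
  obtain ⟨δ, hδ, hδ1, hδ2⟩ : ∃ δ : ℝ, 0 < δ ∧ δ ≤ 1 ∧ δ ≤ ε / 16 :=
    ⟨min 1 (ε / 16), by positivity, min_le_left _ _, min_le_right _ _⟩
  obtain ⟨H1, h1⟩ := avg2 C s hs (δ * δ) (by positivity)
  refine ⟨max H1 (max 3 ⌈8 / ε⌉₊), fun H hH A hA ω X hω hX => ?_⟩
  have hH1 : H1 ≤ H := (le_max_left _ _).trans hH
  have hH3 : 3 ≤ H := ((le_max_left _ _).trans (le_max_right _ _)).trans hH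
  have hH8 : 8 / ε ≤ H := (Nat.le_ceil _).trans (by
    exact_mod_cast ((le_max_right _ _).trans (le_max_right _ _)).trans hH)
  have hHr : (3 : ℝ) ≤ H := by exact_mod_cast hH3
  have h8 : 2 ≤ ε / 4 * H := by
    rw [div_le_iff₀ hε] at hH8
    linarith
  have hp : ∀ n, n ≤ H → sw A n H ≤ ε / 2 * H := by
    intro n hn
    have := ptw hδ hδ1 (by omega) (by positivity) (h1 H hH1 (2 * H) (by omega) A hA) n hn
    have e : 2 * (δ * δ) / δ + 2 * δ = 4 * δ := by field_simp; ring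
    rw [e] at this
    have h5 : 4 * δ * H ≤ ε / 4 * H := mul_le_mul_of_nonneg_right (by linarith) (by linarith)
    linarith
  have hP : ∀ t : ℕ, 1 ≤ t → ∑ n ∈ Icc 1 t, sw A n H ≤ ε / 2 * H * t := by
    intro t ht
    rcases le_or_gt t H with h | h
    · calc ∑ n ∈ Icc 1 t, sw A n H ≤ ∑ n ∈ Icc 1 t, (ε / 2 * H) := by
            refine sum_le_sum fun n hn => hp n ?_
            rw [mem_Icc] at hn; omega
        _ = ε / 2 * H * t := by
            rw [sum_const, Nat.card_Icc, nsmul_eq_mul]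
            simp only [Nat.add_sub_cancel]
            ring
    · have h2 := h1 H hH1 (t + 1) (by omega) A hA
      have h3 : ∑ n ∈ Icc 1 t, sw A n H ≤ ∑ x ∈ range (t + 1), sw A x H := by
        apply sum_le_sum_of_subset_of_nonneg
        · intro x hx
          rw [mem_Icc] at hx
          rw [mem_range]; omega
        · intro x _ _; exact sw_nonneg _ _ _
      refine (h3.trans h2).trans ?_
      have htr : (1 : ℝ) ≤ t := by exact_mod_cast ht
      push_cast
      have h4 : δ * δ ≤ ε / 16 := by nlinarith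
      calc δ * δ * H * ((t : ℝ) + 1) ≤ ε / 16 * H * (2 * t) := by
            apply mul_le_mul
            · exact mul_le_mul_of_nonneg_right h4 (by linarith)
            · linarith
            · positivity
            · positivity
        _ ≤ ε / 2 * H * t := by
            have : 0 ≤ ε * H * t := by positivity
            linarith
  have hω3 : (3 : ℝ) ≤ ω := hHr.trans hω
  have hωp : (0 : ℝ) < ω := by linarith
  have hXp : (0 : ℝ) < X := by linarith
  have hlog : 1 ≤ Real.log ω := by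
    rw [Real.le_log_iff_exp_le hωp]
    linarith [Real.exp_one_lt_d9]
  rcases lt_or_ge ⌊X⌋₊ ⌈X / ω⌉₊ with h | h
  · rw [Finset.Icc_eq_empty (by omega), sum_empty]
    positivity
  have hA1 : 1 ≤ ⌈X / ω⌉₊ := Nat.one_le_ceil_iff.2 (by positivity)
  have h6 := part (S := fun n => sw A n H) (by positivity) hP (fun n => sw_nonneg _ _ _) hA1 ⌊X⌋₊ h
  refine h6.trans ?_
  have hB1 : 1 ≤ ⌊X⌋₊ := hA1.trans h
  have hBr : (0 : ℝ) < ⌊X⌋₊ := by exact_mod_cast hB1
  have hAr : (0 : ℝ) < ⌈X / ω⌉₊ := by exact_mod_cast hA1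
  have h7 : (∑ n ∈ Icc 1 ⌊X⌋₊, sw A n H) / (⌊X⌋₊ : ℝ) ≤ ε / 2 * H := by
    rw [div_le_iff₀ hBr]
    exact hP _ hB1
  have h9 : Real.log ⌊X⌋₊ - Real.log ⌈X / ω⌉₊ ≤ Real.log ω := by
    have a1 : Real.log ⌊X⌋₊ ≤ Real.log X := Real.log_le_log hBr (Nat.floor_le hXp.le)
    have a2 : Real.log (X / ω) ≤ Real.log ⌈X / ω⌉₊ := Real.log_le_log (by positivity) (Nat.le_ceil _)
    rw [Real.log_div (by positivity) (by positivity)] at a2
    linarith
  have h10 : ε / 2 * H * (Real.log ⌊X⌋₊ - Real.log ⌈X / ω⌉₊) ≤ ε / 2 * H * Real.log ω :=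
    mul_le_mul_of_nonneg_left h9 (by positivity)
  have h11 : ε / 2 * H * 1 ≤ ε / 2 * H * Real.log ω := mul_le_mul_of_nonneg_left hlog (by positivity)
  linarith

end Pool.Agent.TH823.SF
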