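import Pool.Agent.TH823.SF.Base

/-! # Sets of frequencies known up to the scale of the window -/

set_option autoImplicit false

namespace Pool.Agent.TH823.SF

open Finset
open Pool.Agent.TH327.Dim

/-- covering numbers modulo one of a set of real numbers, at the scales at least `1 / H` -/
def CoverTo (H : ℕ) (A : Set ℝ) (C s : ℝ) : Prop :=
  ∀ n : ℕ, 1 ≤ n → n ≤ H → ∃ S : Finset ℝ, (S.card : ℝ) ≤ C * (n : ℝ) ^ s ∧
    ∀ α ∈ A, ∃ y ∈ S, ∃ k : ℤ, |α - y - k| ≤ 1 / n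

lemma net {H : ℕ} (hH : 1 ≤ H) {A : Set ℝ} {C s : ℝ} (hs : s < 1 / 2) (h : CoverTo H A C s) :
    ∃ A' : Set ℝ, Cover A' (2 * max C 0) (max s 0) ∧ ∀ α ∈ A, ∃ y ∈ A', ∃ k : ℤ, |α - y - k| ≤ 1 / H := by
  classical
  have hC : (0 : ℝ) ≤ max C 0 := le_max_right _ _
  have hs0 : (0 : ℝ) ≤ max s 0 := le_max_right _ _
  have hs1 : max s 0 ≤ 1 := max_le (by linarith) (by norm_num)
  have up : ∀ n : ℕ, 1 ≤ n → C * (n : ℝ) ^ s ≤ max C 0 * (n : ℝ) ^ (max s 0) := by
    intro n hn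
    have hnr : (1 : ℝ) ≤ n := by exact_mod_cast hn
    calc C * (n : ℝ) ^ s ≤ max C 0 * (n : ℝ) ^ s := mul_le_mul_of_nonneg_right (le_max_left _ _) (by positivity)
      _ ≤ max C 0 * (n : ℝ) ^ (max s 0) := by
          apply mul_le_mul_of_nonneg_left _ hC
          exact Real.rpow_le_rpow_of_exponent_le hnr (le_max_left _ _)
  have two : ∀ n : ℕ, 1 ≤ n → max C 0 * ((2 * n : ℕ) : ℝ) ^ (max s 0) ≤ 2 * max C 0 * (n : ℝ) ^ (max s 0) := by
    intro n hn
    push_cast
    rw [Real.mul_rpow (by norm_num) (by positivity)]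
    have h2 : (2 : ℝ) ^ (max s 0) ≤ 2 := by
      calc (2 : ℝ) ^ (max s 0) ≤ (2 : ℝ) ^ (1 : ℝ) := Real.rpow_le_rpow_of_exponent_le (by norm_num) hs1
        _ = 2 := Real.rpow_one 2
    have h3 : (0 : ℝ) ≤ max C 0 * (n : ℝ) ^ (max s 0) := by positivity
    nlinarith
  obtain ⟨S, hS, hc⟩ := h H hH le_rfl
  refine ⟨{y | y ∈ S ∧ ∃ α ∈ A, ∃ k : ℤ, |α - y - k| ≤ 1 / H}, ?_, ?_⟩
  · intro n hn
    rcases le_or_gt (2 * n) H with h2 | h2
    · obtain ⟨S2, hS2, hc2⟩ := h (2 * n) (by omega) h2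
      refine ⟨S2, (hS2.trans (up _ (by omega))).trans (two n hn), ?_⟩
      rintro y ⟨hy, α, hα, k, hk⟩
      obtain ⟨z, hz, l, hl⟩ := hc2 α hα
      refine ⟨z, hz, l - k, ?_⟩
      have hnr : (0 : ℝ) < n := by exact_mod_cast hn
      have e1 : (1 : ℝ) / H ≤ 1 / (2 * n) := by
        apply one_div_le_one_div_of_le (by positivity)
        exact_mod_cast h2
      have e2 : (1 : ℝ) / (2 * n) + 1 / (2 * n) = 1 / n := by field_simp; norm_num
      push_cast at hl ⊢
      have e3 : y - z - ((l : ℝ) - k) = (α - z - l) - (α - y - k) := by ring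
      rw [e3]
      refine (abs_sub _ _).trans ?_
      linarith
    · refine ⟨S, (hS.trans (up _ hH)).trans (le_trans ?_ (two n hn)), ?_⟩
      · apply mul_le_mul_of_nonneg_left _ hC
        apply Real.rpow_le_rpow (by positivity) _ hs0
        exact_mod_cast h2.le
      · rintro y ⟨hy, _⟩
        refine ⟨y, hy, 0, ?_⟩
        simp
  · intro α hα
    obtain ⟨y, hy, k, hk⟩ := hc α hα
    exact ⟨y, ⟨hy, α, hα, k, hk⟩, k, hk⟩

/-- splitting a window -/
lemma split (f : ℕ → ℂ) (n L J : ℕ) : ∑ m ∈ Ioc n (n + J * L), f m = ∑ j ∈ range J, ∑ m ∈ Ioc (n + j * L) (n + j * L + L), f m := by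
  induction J with
  | zero => simp
  | succ J ih =>
    rw [sum_range_succ, ← ih, Finset.sum_Ioc_consecutive f (by omega) (by omega)]
    congr 2
    ring

lemma exp_close (a b : ℝ) : ‖Complex.exp (a * Complex.I) - Complex.exp (b * Complex.I)‖ ≤ |a - b| := by
  have h1 : Complex.exp (a * Complex.I) - Complex.exp (b * Complex.I) =
      Complex.exp (b * Complex.I) * (Complex.exp (((a - b : ℝ) : ℂ) * Complex.I) - 1) := by
    rw [mul_sub, ← Complex.exp_add, mul_one]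
    congr 2
    push_cast; ring
  rw [h1, norm_mul, Complex.norm_exp_ofReal_mul_I, one_mul]
  have := Real.norm_exp_I_mul_ofReal_sub_one_le (x := a - b)
  rw [mul_comm] at this
  simpa [Real.norm_eq_abs] using this

lemma block (α y : ℝ) (k : ℤ) (n H L J : ℕ) (hH : 1 ≤ H) (hJ : J * L ≤ H) (hJ2 : H ≤ J * L + L) (hk : |α - y - k| ≤ 1 / H) :
    ‖wsum α n H‖ ≤ ∑ j ∈ range J, ‖wsum y (n + j * L) L‖ + 8 * L := by
  have hHr : (0 : ℝ) < H := by exact_mod_cast hH
  obtain ⟨g, hg⟩ : ∃ g : ℝ → ℕ → ℂ, g = fun (a : ℝ) (m : ℕ) => Complex.exp (((2 * Real.pi * (m : ℝ) * a : ℝ) : ℂ) * Complex.I) := ⟨_, rfl⟩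
  have hgn : ∀ a m, ‖g a m‖ = 1 := by
    intro a m; rw [hg]; exact Complex.norm_exp_ofReal_mul_I _
  have hgf : ∀ (a : ℝ) (m : ℕ), (fourier (m : ℤ) (a : UnitAddCircle) : ℂ) = g a m := by
    intro a m; rw [phase, hg]
    congr 1
    push_cast; ring
  have e : ∀ (a : ℝ) (x K : ℕ), ‖wsum a x K‖ = ‖∑ m ∈ Ioc x (x + K), laf m * g a m‖ := by
    intro a x K
    rw [← asum]
    congr 1
    exact sum_congr rfl fun m _ => by rw [hgf]
  have hαy : ∀ m, g α m = g y m * g (α - y - k) m := by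
    intro m
    rw [hg]
    show Complex.exp _ = Complex.exp _ * Complex.exp _
    rw [← Complex.exp_add]
    rw [Complex.exp_eq_exp_iff_exists_int]
    refine ⟨m * k, ?_⟩
    push_cast; ring
  rw [e α n H]
  have h1 := Finset.sum_Ioc_consecutive (fun m => laf m * g α m) (show n ≤ n + J * L by omega)
    (show n + J * L ≤ n + H by omega)
  rw [← h1]
  refine (norm_add_le _ _).trans ?_
  have h2 : ‖∑ m ∈ Ioc (n + J * L) (n + H), laf m * g α m‖ ≤ L := by
    refine (norm_sum_le _ _).trans ?_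
    have : ∑ m ∈ Ioc (n + J * L) (n + H), ‖laf m * g α m‖ ≤ ∑ m ∈ Ioc (n + J * L) (n + H), (1 : ℝ) := by
      refine sum_le_sum fun m _ => ?_
      rw [norm_mul, hgn, mul_one]; exact laf_le m
    refine this.trans ?_
    rw [sum_const, Nat.card_Ioc, nsmul_eq_mul, mul_one]
    exact_mod_cast (by omega : n + H - (n + J * L) ≤ L)
  have h3 : ∀ j, j < J → ‖∑ m ∈ Ioc (n + j * L) (n + j * L + L), laf m * g α m‖ ≤
      ‖wsum y (n + j * L) L‖ + L * (2 * Real.pi * L / H) := by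
    intro j hj
    rw [e y]
    obtain ⟨β, hβ⟩ : ∃ β : ℝ, β = α - y - k := ⟨_, rfl⟩
    have h4 : ∑ m ∈ Ioc (n + j * L) (n + j * L + L), laf m * g α m =
        g β (n + j * L) * ∑ m ∈ Ioc (n + j * L) (n + j * L + L), laf m * g y m +
        ∑ m ∈ Ioc (n + j * L) (n + j * L + L), laf m * g y m * (g β m - g β (n + j * L)) := by
      rw [mul_sum, ← sum_add_distrib]
      refine sum_congr rfl fun m _ => ?_
      rw [hαy, ← hβ]; ring
    rw [h4]
    refine (norm_add_le _ _).trans ?_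
    rw [norm_mul, hgn, one_mul]
    apply add_le_add le_rfl
    refine (norm_sum_le _ _).trans ?_
    have h5 : ∑ m ∈ Ioc (n + j * L) (n + j * L + L), ‖laf m * g y m * (g β m - g β (n + j * L))‖ ≤
        ∑ m ∈ Ioc (n + j * L) (n + j * L + L), (2 * Real.pi * L / H) := by
      refine sum_le_sum fun m hm => ?_
      rw [mem_Ioc] at hm
      rw [norm_mul, norm_mul, hgn, mul_one]
      have h6 : ‖g β m - g β (n + j * L)‖ ≤ 2 * Real.pi * L / H := by
        rw [hg]
        refine (exp_close _ _).trans ?_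
        have e2 : 2 * Real.pi * (m : ℝ) * β - 2 * Real.pi * ((n + j * L : ℕ) : ℝ) * β =
            2 * Real.pi * (((m : ℝ) - ((n + j * L : ℕ) : ℝ)) * β) := by ring
        rw [e2, abs_mul, abs_of_pos (by positivity : (0 : ℝ) < 2 * Real.pi), abs_mul]
        have e3 : |(m : ℝ) - ((n + j * L : ℕ) : ℝ)| ≤ L := by
          rw [abs_le]
          have a1 : ((n + j * L : ℕ) : ℝ) < m := by exact_mod_cast hm.1
          have a2 : (m : ℝ) ≤ ((n + j * L : ℕ) : ℝ) + L := by exact_mod_cast hm.2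
          constructor <;> linarith [show (0 : ℝ) ≤ L from Nat.cast_nonneg L]
        have e4 : |β| ≤ 1 / H := by rw [hβ]; exact hk
        calc 2 * Real.pi * (|(m : ℝ) - ((n + j * L : ℕ) : ℝ)| * |β|) ≤ 2 * Real.pi * ((L : ℝ) * (1 / H)) := by
              apply mul_le_mul_of_nonneg_left _ (by positivity)
              exact mul_le_mul e3 e4 (abs_nonneg _) (Nat.cast_nonneg _)
          _ = 2 * Real.pi * L / H := by ring
      calc ‖laf m‖ * ‖g β m - g β (n + j * L)‖ ≤ 1 * (2 * Real.pi * L / H) :=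
            mul_le_mul (laf_le m) h6 (norm_nonneg _) (by norm_num)
        _ = _ := one_mul _
    refine h5.trans (le_of_eq ?_)
    rw [sum_const, Nat.card_Ioc, nsmul_eq_mul]
    congr 2
    omega
  rw [split]
  have h7 : ‖∑ j ∈ range J, ∑ m ∈ Ioc (n + j * L) (n + j * L + L), laf m * g α m‖ ≤
      ∑ j ∈ range J, ‖wsum y (n + j * L) L‖ + J * (L * (2 * Real.pi * L / H)) := by
    refine (norm_sum_le _ _).trans ((sum_le_sum fun j hj => h3 j (mem_range.1 hj)).trans (le_of_eq ?_))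
    rw [sum_add_distrib, sum_const, card_range, nsmul_eq_mul]
  have h8 : (J : ℝ) * (L * (2 * Real.pi * L / H)) ≤ 2 * Real.pi * L := by
    have e1 : (J : ℝ) * (L * (2 * Real.pi * L / H)) = 2 * Real.pi * L * (((J * L : ℕ) : ℝ) / H) := by
      push_cast; field_simp
    rw [e1]
    have e2 : (((J * L : ℕ) : ℝ) / H) ≤ 1 := by
      rw [div_le_one hHr]; exact_mod_cast hJ
    have : (0 : ℝ) ≤ 2 * Real.pi * L := by positivity
    nlinarith
  have hpi : 2 * Real.pi * L ≤ 6.3 * L := by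
    have := Real.pi_lt_d2
    have hL : (0 : ℝ) ≤ L := Nat.cast_nonneg L
    nlinarith
  have hL : (0 : ℝ) ≤ L := Nat.cast_nonneg L
  linarith

/-- the mean over all starting points, for sets known up to the scale of the window -/
theorem avg2 (C s : ℝ) (hs : s < 1 / 2) (ε : ℝ) (hε : 0 < ε) : ∃ H0 : ℕ, ∀ H : ℕ, H0 ≤ H → ∀ X : ℕ, H ≤ X →
    ∀ A : Set ℝ, CoverTo H A C s → ∑ x ∈ range X, sw A x H ≤ ε * H * X := by
  obtain ⟨H1, h1⟩ := avg (2 * max C 0) (max s 0) (max_lt hs (by norm_num)) (ε / 4) (by positivity)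
  obtain ⟨δ, hδ, hδ1, hδ2⟩ : ∃ δ : ℝ, 0 < δ ∧ δ ≤ 1 ∧ δ ≤ ε / 16 :=
    ⟨min 1 (ε / 16), by positivity, min_le_left _ _, min_le_right _ _⟩
  refine ⟨max 1 ⌈((H1 : ℝ) + 1) / δ⌉₊, fun H hH X hX A hA => ?_⟩
  have hH1 : 1 ≤ H := (le_max_left _ _).trans hH
  have hHr : (1 : ℝ) ≤ H := by exact_mod_cast hH1
  have hH2 : ((H1 : ℝ) + 1) ≤ δ * H := by
    have : ((H1 : ℝ) + 1) / δ ≤ H := (Nat.le_ceil _).trans (by exact_mod_cast (le_max_right _ _).trans hH)
    rw [div_le_iff₀ hδ] at this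
    linarith
  obtain ⟨L, hL⟩ : ∃ L : ℕ, L = ⌊δ * H⌋₊ := ⟨_, rfl⟩
  have hLH : (L : ℝ) ≤ δ * H := by rw [hL]; exact Nat.floor_le (by positivity)
  have hL1 : H1 + 1 ≤ L := by
    rw [hL]; apply Nat.le_floor
    push_cast; exact hH2
  obtain ⟨J, hJ⟩ : ∃ J : ℕ, J = H / L := ⟨_, rfl⟩
  have hJ1 : J * L ≤ H := by rw [hJ]; exact Nat.div_mul_le_self H L
  have hJ2 : H ≤ J * L + L := by
    rw [hJ]
    exact (Nat.lt_div_mul_add (by omega)).le
  have hJ1r : (J : ℝ) * L ≤ H := by exact_mod_cast hJ1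
  rcases A.eq_empty_or_nonempty with h | h
  · subst h
    have h0 : ∀ n, sw (∅ : Set ℝ) n H = 0 := fun n => Real.iSup_of_isEmpty _
    simp only [h0, sum_const_zero]
    positivity
  have hne : Nonempty A := h.to_subtype
  obtain ⟨A', hA', hn⟩ := net hH1 hs hA
  have h2 : ∀ x, sw A x H ≤ ∑ j ∈ range J, sw A' (x + j * L) L + 8 * L := by
    intro x
    refine ciSup_le fun α => ?_
    obtain ⟨y, hy, k, hk⟩ := hn α α.2
    refine (block (α : ℝ) y k x H L J hH1 hJ1 hJ2 hk).trans ?_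
    apply add_le_add _ le_rfl
    refine sum_le_sum fun j _ => ?_
    exact le_ciSup (sw_bdd A' (x + j * L) L) ⟨y, hy⟩
  have hXr : (H : ℝ) ≤ X := by exact_mod_cast hX
  have hLX : L ≤ X := by
    have : (L : ℝ) ≤ X := by nlinarith
    exact_mod_cast this
  have h3 : ∀ j ∈ range J, ∑ x ∈ range X, sw A' (x + j * L) L ≤ ε / 4 * L * ((2 * X : ℕ) : ℝ) := by
    intro j hj
    rw [mem_range] at hj
    have e : ∑ x ∈ range X, sw A' (x + j * L) L = ∑ x ∈ (range X).image (fun x => x + j * L), sw A' x L := by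
      rw [sum_image fun a _ b _ hab => by omega]
    have hjL : j * L ≤ H := (Nat.mul_le_mul_right L hj.le).trans hJ1
    refine le_trans ?_ (h1 L (by omega) (2 * X) (by omega) A' hA')
    rw [e]
    apply sum_le_sum_of_subset_of_nonneg
    · intro x hx
      simp only [mem_image, mem_range] at hx ⊢
      obtain ⟨k, hk, rfl⟩ := hx
      omega
    · intro x _ _; exact sw_nonneg _ _ _
  calc ∑ x ∈ range X, sw A x H ≤ ∑ x ∈ range X, (∑ j ∈ range J, sw A' (x + j * L) L + 8 * L) :=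
        sum_le_sum fun x _ => h2 x
    _ = ∑ j ∈ range J, ∑ x ∈ range X, sw A' (x + j * L) L + X * (8 * L) := by
        rw [sum_add_distrib, sum_comm, sum_const, card_range, nsmul_eq_mul]
    _ ≤ ∑ j ∈ range J, ε / 4 * L * ((2 * X : ℕ) : ℝ) + X * (8 * L) := add_le_add (sum_le_sum h3) le_rfl
    _ = ε / 2 * (J * L) * X + 8 * L * X := by
        rw [sum_const, card_range, nsmul_eq_mul]
        push_cast; ring
    _ ≤ ε / 2 * H * X + 8 * (ε / 16 * H) * X := by
        have hX0 : (0 : ℝ) ≤ X := Nat.cast_nonneg X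
        apply add_le_add
        · apply mul_le_mul_of_nonneg_right _ hX0
          exact mul_le_mul_of_nonneg_left hJ1r (by positivity)
        · apply mul_le_mul_of_nonneg_right _ hX0
          have : (L : ℝ) ≤ ε / 16 * H := hLH.trans (mul_le_mul_of_nonneg_right hδ2 (by positivity))
          linarith
    _ = ε * H * X := by ring

end Pool.Agent.TH823.SF
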