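import Pool.Agent.TH823.SF.Nbh

/-! # Window sums of the Liouville function along rotations of tori -/

set_option autoImplicit false

namespace Pool.Agent.TH823.SF

open Finset
open Pool.Agent.TH327.Dim

variable {d : ℕ}

/-- covering numbers of a subset of the torus at the scales at least `1 / H` -/
def CoverToT (H : ℕ) (E : Set (Fin d → UnitAddCircle)) (C s : ℝ) : Prop :=
  ∀ n : ℕ, 1 ≤ n → n ≤ H → ∃ S : Finset (Fin d → UnitAddCircle), (S.card : ℝ) ≤ C * (n : ℝ) ^ s ∧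
    ∀ g ∈ E, ∃ y ∈ S, dist g y ≤ 1 / n

/-- the supremum of the window sum -/
noncomputable def wsT (E : Set (Fin d → UnitAddCircle)) (F : C(Fin d → UnitAddCircle, ℂ)) (x H : ℕ) : ℝ :=
  ⨆ p : E × (Fin d → UnitAddCircle), ‖∑ n ∈ Ioc x (x + H), (-1 : ℂ) ^ ArithmeticFunction.cardFactors n *
    F (p.2 + n • (p.1 : Fin d → UnitAddCircle))‖

lemma netT {H : ℕ} (hH : 1 ≤ H) {E : Set (Fin d → UnitAddCircle)} {C s : ℝ} (hs : s < 1 / 2) (h : CoverToT H E C s) :
    ∃ E' : Set (Fin d → UnitAddCircle), CovT E' (2 * max C 0) (max s 0) ∧ ∀ g ∈ E, ∃ z ∈ E', dist g z ≤ 1 / H := by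
  classical
  have hC : (0 : ℝ) ≤ max C 0 := le_max_right _ _
  have hs0 : (0 : ℝ) ≤ max s 0 := le_max_right _ _
  have hs1 : max s 0 ≤ 1 := max_le (by linarith) (by norm_num)
  have up : ∀ n : ℕ, 1 ≤ n → C * (n : ℝ) ^ s ≤ max C 0 * (n : ℝ) ^ (max s 0) := by
    intro n hn
    have hnr : (1 : ℝ) ≤ n := by exact_mod_cast hn
    calc C * (n : ℝ) ^ s ≤ max C 0 * (n : ℝ) ^ s := mul_le_mul_of_nonneg_right (le_max_left _ _) (by positivity)
      _ ≤ max C 0 * (n : ℝ) ^ (max s 0) := by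
          apply mul_le_mul_of_nonneg_left _ hC
          exact Real.rpow_le_rpow_of_exponent_le hnr (le_max_left _ _)
  have two : ∀ n : ℕ, 1 ≤ n → max C 0 * ((2 * n : ℕ) : ℝ) ^ (max s 0) ≤ 2 * max C 0 * (n : ℝ) ^ (max s 0) := by
    intro n hn
    push_cast
    rw [Real.mul_rpow (by norm_num) (by positivity)]
    have h2 : (2 : ℝ) ^ (max s 0) ≤ 2 := by
      calc (2 : ℝ) ^ (max s 0) ≤ (2 : ℝ) ^ (1 : ℝ) := Real.rpow_le_rpow_of_exponent_le (by norm_num) hs1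
        _ = 2 := Real.rpow_one 2
    have h3 : (0 : ℝ) ≤ max C 0 * (n : ℝ) ^ (max s 0) := by positivity
    nlinarith
  obtain ⟨S, hS, hc⟩ := h H hH le_rfl
  refine ⟨{y | y ∈ S ∧ ∃ g ∈ E, dist g y ≤ 1 / H}, ?_, ?_⟩
  · intro n hn
    rcases le_or_gt (2 * n) H with h2 | h2
    · obtain ⟨S2, hS2, hc2⟩ := h (2 * n) (by omega) h2
      refine ⟨S2, (hS2.trans (up _ (by omega))).trans (two n hn), ?_⟩
      rintro y ⟨hy, g, hg, hk⟩
      obtain ⟨z, hz, hl⟩ := hc2 g hg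
      refine ⟨z, hz, ?_⟩
      have hnr : (0 : ℝ) < n := by exact_mod_cast hn
      have e1 : (1 : ℝ) / H ≤ 1 / (2 * n) := by
        apply one_div_le_one_div_of_le (by positivity)
        exact_mod_cast h2
      have e2 : (1 : ℝ) / (2 * n) + 1 / (2 * n) = 1 / n := by field_simp; norm_num
      push_cast at hl
      have := dist_triangle_left y z g
      linarith
    · refine ⟨S, (hS.trans (up _ hH)).trans (le_trans ?_ (two n hn)), ?_⟩
      · apply mul_le_mul_of_nonneg_left _ hC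
        apply Real.rpow_le_rpow (by positivity) _ hs0
        exact_mod_cast h2.le
      · rintro y ⟨hy, _⟩
        refine ⟨y, hy, ?_⟩
        rw [dist_self]; positivity
  · intro g hg
    obtain ⟨y, hy, hk⟩ := hc g hg
    exact ⟨y, ⟨hy, g, hg, hk⟩, hk⟩

lemma wsT_term_le (F : C(Fin d → UnitAddCircle, ℂ)) (x H : ℕ) (g y : Fin d → UnitAddCircle) :
    ‖∑ n ∈ Ioc x (x + H), (-1 : ℂ) ^ ArithmeticFunction.cardFactors n * F (y + n • g)‖ ≤ H * ‖F‖ := by
  refine (norm_sum_le _ _).trans ?_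
  have : ∑ n ∈ Ioc x (x + H), ‖(-1 : ℂ) ^ ArithmeticFunction.cardFactors n * F (y + n • g)‖ ≤
      ∑ n ∈ Ioc x (x + H), ‖F‖ := by
    refine sum_le_sum fun n _ => ?_
    rw [norm_mul, norm_pow, norm_neg, norm_one, one_pow, one_mul]
    exact F.norm_coe_le_norm _
  refine this.trans (le_of_eq ?_)
  rw [sum_const, Nat.card_Ioc, nsmul_eq_mul]
  congr 2
  omega

lemma wsT_bdd (E : Set (Fin d → UnitAddCircle)) (F : C(Fin d → UnitAddCircle, ℂ)) (x H : ℕ) :
    BddAbove (Set.range fun p : E × (Fin d → UnitAddCircle) => ‖∑ n ∈ Ioc x (x + H),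
      (-1 : ℂ) ^ ArithmeticFunction.cardFactors n * F (p.2 + n • (p.1 : Fin d → UnitAddCircle))‖) :=
  ⟨H * ‖F‖, by rintro _ ⟨p, rfl⟩; exact wsT_term_le _ _ _ _ _⟩

lemma wsT_nonneg (E : Set (Fin d → UnitAddCircle)) (F : C(Fin d → UnitAddCircle, ℂ)) (x H : ℕ) : 0 ≤ wsT E F x H :=
  Real.iSup_nonneg fun _ => norm_nonneg _

lemma choose_near (E : Set (Fin d → UnitAddCircle)) (F : C(Fin d → UnitAddCircle, ℂ)) (x H : ℕ)
    (hE : E.Nonempty) (δ : ℝ) (hδ : 0 < δ) :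
    ∃ ω : (Fin d → UnitAddCircle) × (Fin d → UnitAddCircle), ω.1 ∈ E ∧
      wsT E F x H ≤ ‖∑ m ∈ Ioc x (x + H), laf m * evT ω m F‖ + δ := by
  obtain ⟨g0, hg0⟩ := hE
  have : Nonempty (E × (Fin d → UnitAddCircle)) := ⟨(⟨g0, hg0⟩, 0)⟩
  obtain ⟨p, hp⟩ := exists_lt_of_lt_ciSup (show wsT E F x H - δ < wsT E F x H by linarith)
  refine ⟨(p.1, p.2), p.1.2, ?_⟩
  have e : ∑ m ∈ Ioc x (x + H), laf m * evT ((p.1 : Fin d → UnitAddCircle), p.2) m F =
      ∑ n ∈ Ioc x (x + H), (-1 : ℂ) ^ ArithmeticFunction.cardFactors n *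
        F (p.2 + n • (p.1 : Fin d → UnitAddCircle)) := rfl
  rw [e]
  linarith

theorem avgT (F : C(Fin d → UnitAddCircle, ℂ)) (C s : ℝ) (hC : 0 ≤ C) (hs0 : 0 ≤ s) (hs : s < 1 / 2) (ε : ℝ)
    (hε : 0 < ε) : ∃ H₀ : ℕ, ∀ X H : ℕ, H₀ ≤ H → H ≤ X → ∀ E : Set (Fin d → UnitAddCircle), CovT E C s →
      ∑ x ∈ range X, wsT E F x H ≤ ε * H * X := by
  have hF : ∀ h ∈ ({laf} : Set (ℕ → ℂ)), ∀ n, ‖h n‖ ≤ 1 := by
    intro h hh n
    rw [Set.mem_singleton_iff] at hh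
    rw [hh]; exact laf_le n
  have hPW := PW_torus hF (s := s) (fun C' hC' => good_lam hC' hs0 hs) d C hC F
  obtain ⟨H2, h2⟩ := hPW (ε / 2) (by positivity)
  refine ⟨max H2 1, fun X H hH hX E hE => ?_⟩
  have hHr : (0 : ℝ) < H := by exact_mod_cast lt_of_lt_of_le Nat.zero_lt_one ((le_max_right _ _).trans hH)
  rcases E.eq_empty_or_nonempty with hem | hne
  · subst hem
    have h0 : ∀ n, wsT (∅ : Set (Fin d → UnitAddCircle)) F n H = 0 := fun n => Real.iSup_of_isEmpty _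
    simp only [h0, sum_const_zero]
    positivity
  choose ω hω1 hω2 using fun x => choose_near E F x H hne (ε / 2 * H) (by positivity)
  have a2 := h2 H ((le_max_left _ _).trans hH) X hX ⟨E, hE⟩ laf rfl ω (fun x => hω1 x)
  calc ∑ x ∈ range X, wsT E F x H ≤
      ∑ x ∈ range X, (‖∑ m ∈ Ioc x (x + H), laf m * evT (ω x) m F‖ + ε / 2 * H) := sum_le_sum fun x _ => hω2 x
    _ = ∑ x ∈ range X, ‖∑ m ∈ Ioc x (x + H), laf m * evT (ω x) m F‖ + X * (ε / 2 * H) := by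
        rw [sum_add_distrib, sum_const, card_range, nsmul_eq_mul]
    _ ≤ ε / 2 * H * X + X * (ε / 2 * H) := add_le_add a2 le_rfl
    _ = ε * H * X := by ring

lemma blockT (F : C(Fin d → UnitAddCircle, ℂ)) {δ η : ℝ}
    (hF : ∀ u v : Fin d → UnitAddCircle, dist u v ≤ δ → ‖F u - F v‖ ≤ η) (g z y : Fin d → UnitAddCircle)
    (E' : Set (Fin d → UnitAddCircle)) (hz : z ∈ E') (x H L J : ℕ) (hH : 1 ≤ H) (hJ : J * L ≤ H)
    (hJ2 : H ≤ J * L + L) (hL : (L : ℝ) ≤ δ * H) (hk : dist g z ≤ 1 / H) (hη : 0 ≤ η) :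
    ‖∑ n ∈ Ioc x (x + H), laf n * F (y + n • g)‖ ≤ ∑ j ∈ range J, wsT E' F (x + j * L) L + η * H + L * ‖F‖ := by
  have hHr : (0 : ℝ) < H := by exact_mod_cast hH
  have h1 := Finset.sum_Ioc_consecutive (fun n => laf n * F (y + n • g)) (show x ≤ x + J * L by omega)
    (show x + J * L ≤ x + H by omega)
  rw [← h1]
  refine (norm_add_le _ _).trans ?_
  have h2 : ‖∑ n ∈ Ioc (x + J * L) (x + H), laf n * F (y + n • g)‖ ≤ L * ‖F‖ := by
    refine (norm_sum_le _ _).trans ?_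
    have : ∑ n ∈ Ioc (x + J * L) (x + H), ‖laf n * F (y + n • g)‖ ≤ ∑ n ∈ Ioc (x + J * L) (x + H), ‖F‖ := by
      refine sum_le_sum fun n _ => ?_
      rw [norm_mul]
      calc ‖laf n‖ * ‖F (y + n • g)‖ ≤ 1 * ‖F‖ :=
            mul_le_mul (laf_le n) (F.norm_coe_le_norm _) (norm_nonneg _) (by norm_num)
        _ = ‖F‖ := one_mul _
    refine this.trans ?_
    rw [sum_const, Nat.card_Ioc, nsmul_eq_mul]
    apply mul_le_mul_of_nonneg_right _ (norm_nonneg _)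
    exact_mod_cast (by omega : x + H - (x + J * L) ≤ L)
  have h3 : ∀ j, j < J → ‖∑ n ∈ Ioc (x + j * L) (x + j * L + L), laf n * F (y + n • g)‖ ≤
      wsT E' F (x + j * L) L + L * η := by
    intro j hj
    obtain ⟨w, hw⟩ : ∃ w, w = x + j * L := ⟨_, rfl⟩
    rw [← hw]
    obtain ⟨y', hy'⟩ : ∃ y' : Fin d → UnitAddCircle, y' = y + w • (g - z) := ⟨_, rfl⟩
    have h4 : ∑ n ∈ Ioc w (w + L), laf n * F (y + n • g) = ∑ n ∈ Ioc w (w + L), laf n * F (y' + n • z) +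
        ∑ n ∈ Ioc w (w + L), laf n * (F (y + n • g) - F (y' + n • z)) := by
      rw [← sum_add_distrib]
      exact sum_congr rfl fun n _ => by ring
    rw [h4]
    refine (norm_add_le _ _).trans (add_le_add ?_ ?_)
    · exact le_ciSup (wsT_bdd E' F w L) (⟨z, hz⟩, y')
    · refine (norm_sum_le _ _).trans ?_
      have h5 : ∑ n ∈ Ioc w (w + L), ‖laf n * (F (y + n • g) - F (y' + n • z))‖ ≤ ∑ n ∈ Ioc w (w + L), η := by
        refine sum_le_sum fun n hn => ?_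
        rw [mem_Ioc] at hn
        rw [norm_mul]
        have h6 : ‖F (y + n • g) - F (y' + n • z)‖ ≤ η := by
          apply hF
          rw [dist_eq_norm]
          obtain ⟨r, hr⟩ : ∃ r, n = w + r := ⟨n - w, by omega⟩
          have e1 : y + n • g - (y' + n • z) = r • (g - z) := by
            rw [hy', hr, add_smul, add_smul, smul_sub, smul_sub]
            abel
          rw [e1]
          refine (norm_nsmul_le).trans ?_
          rw [← dist_eq_norm]
          have hrL : (r : ℝ) ≤ L := by exact_mod_cast (by omega : r ≤ L)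
          calc (r : ℝ) * dist g z ≤ L * (1 / H) := mul_le_mul hrL hk dist_nonneg (Nat.cast_nonneg _)
            _ ≤ δ := by
                rw [mul_one_div, div_le_iff₀ hHr]; exact hL
        calc ‖laf n‖ * ‖F (y + n • g) - F (y' + n • z)‖ ≤ 1 * η :=
              mul_le_mul (laf_le n) h6 (norm_nonneg _) (by norm_num)
          _ = η := one_mul _
      refine h5.trans (le_of_eq ?_)
      rw [sum_const, Nat.card_Ioc, nsmul_eq_mul]
      congr 2
      omega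
  rw [split]
  have h7 : ‖∑ j ∈ range J, ∑ n ∈ Ioc (x + j * L) (x + j * L + L), laf n * F (y + n • g)‖ ≤
      ∑ j ∈ range J, wsT E' F (x + j * L) L + J * (L * η) := by
    refine (norm_sum_le _ _).trans ((sum_le_sum fun j hj => h3 j (mem_range.1 hj)).trans (le_of_eq ?_))
    rw [sum_add_distrib, sum_const, card_range, nsmul_eq_mul]
  have h8 : (J : ℝ) * (L * η) ≤ η * H := by
    have : (J : ℝ) * L ≤ H := by exact_mod_cast hJ
    nlinarith
  linarith

theorem avgT2 (F : C(Fin d → UnitAddCircle, ℂ)) (C s : ℝ) (hs : s < 1 / 2) (ε : ℝ) (hε : 0 < ε) :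
    ∃ H₀ : ℕ, ∀ X H : ℕ, H₀ ≤ H → H ≤ X → ∀ E : Set (Fin d → UnitAddCircle), CoverToT H E C s →
      ∑ x ∈ range X, wsT E F x H ≤ ε * H * X := by
  obtain ⟨H1, h1⟩ := avgT F (2 * max C 0) (max s 0) (by positivity) (le_max_right _ _)
    (max_lt hs (by norm_num)) (ε / 8) (by positivity)
  have huc := CompactSpace.uniformContinuous_of_continuous F.continuous
  rw [Metric.uniformContinuous_iff] at huc
  obtain ⟨δ0, hδ0, hu⟩ := huc (ε / 4) (by positivity)
  obtain ⟨δ, hδ, hδ1, hδ2, hδ3⟩ : ∃ δ : ℝ, 0 < δ ∧ δ ≤ 1 ∧ δ * ‖F‖ ≤ ε / 4 ∧ δ < δ0 := by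
    refine ⟨min (min 1 (ε / (4 * (‖F‖ + 1)))) (δ0 / 2), by positivity, (min_le_left _ _).trans (min_le_left _ _), ?_,
      lt_of_le_of_lt (min_le_right _ _) (by linarith)⟩
    have a1 : min (min 1 (ε / (4 * (‖F‖ + 1)))) (δ0 / 2) ≤ ε / (4 * (‖F‖ + 1)) :=
      (min_le_left _ _).trans (min_le_right _ _)
    calc min (min 1 (ε / (4 * (‖F‖ + 1)))) (δ0 / 2) * ‖F‖ ≤ ε / (4 * (‖F‖ + 1)) * ‖F‖ :=
          mul_le_mul_of_nonneg_right a1 (norm_nonneg _)
      _ ≤ ε / (4 * (‖F‖ + 1)) * (‖F‖ + 1) := mul_le_mul_of_nonneg_left (by linarith) (by positivity)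
      _ = ε / 4 := by field_simp
  have hF : ∀ u v : Fin d → UnitAddCircle, dist u v ≤ δ → ‖F u - F v‖ ≤ ε / 4 := by
    intro u v huv
    rw [← dist_eq_norm]
    exact (hu (lt_of_le_of_lt huv hδ3)).le
  refine ⟨max 1 ⌈((H1 : ℝ) + 1) / δ⌉₊, fun X H hH hX E hE => ?_⟩
  have hH1 : 1 ≤ H := (le_max_left _ _).trans hH
  have hHr : (1 : ℝ) ≤ H := by exact_mod_cast hH1
  have hH2 : ((H1 : ℝ) + 1) ≤ δ * H := by
    have : ((H1 : ℝ) + 1) / δ ≤ H := (Nat.le_ceil _).trans (by exact_mod_cast (le_max_right _ _).trans hH)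
    rw [div_le_iff₀ hδ] at this
    linarith
  obtain ⟨L, hL⟩ : ∃ L : ℕ, L = ⌊δ * H⌋₊ := ⟨_, rfl⟩
  have hLH : (L : ℝ) ≤ δ * H := by rw [hL]; exact Nat.floor_le (by positivity)
  have hL1 : H1 + 1 ≤ L := by
    rw [hL]; apply Nat.le_floor
    push_cast; exact hH2
  obtain ⟨J, hJ⟩ : ∃ J : ℕ, J = H / L := ⟨_, rfl⟩
  have hJ1 : J * L ≤ H := by rw [hJ]; exact Nat.div_mul_le_self H L
  have hJ2 : H ≤ J * L + L := by
    rw [hJ]
    exact (Nat.lt_div_mul_add (by omega)).le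
  have hJ1r : (J : ℝ) * L ≤ H := by exact_mod_cast hJ1
  rcases E.eq_empty_or_nonempty with h | h
  · subst h
    have h0 : ∀ n, wsT (∅ : Set (Fin d → UnitAddCircle)) F n H = 0 := fun n => Real.iSup_of_isEmpty _
    simp only [h0, sum_const_zero]
    positivity
  obtain ⟨g0, hg0⟩ := h
  have hne : Nonempty (E × (Fin d → UnitAddCircle)) := ⟨(⟨g0, hg0⟩, 0)⟩
  obtain ⟨E', hE', hn⟩ := netT hH1 hs hE
  have h2 : ∀ x, wsT E F x H ≤ ∑ j ∈ range J, wsT E' F (x + j * L) L + ε / 2 * H := by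
    intro x
    refine ciSup_le fun p => ?_
    obtain ⟨z, hz, hk⟩ := hn p.1 p.1.2
    have h3 := blockT F hF (p.1 : Fin d → UnitAddCircle) z p.2 E' hz x H L J hH1 hJ1 hJ2 hLH hk (by positivity)
    have h4 : (L : ℝ) * ‖F‖ ≤ ε / 4 * H := by
      calc (L : ℝ) * ‖F‖ ≤ δ * H * ‖F‖ := mul_le_mul_of_nonneg_right hLH (norm_nonneg _)
        _ = δ * ‖F‖ * H := by ring
        _ ≤ ε / 4 * H := mul_le_mul_of_nonneg_right hδ2 (by linarith)
    refine h3.trans ?_
    linarith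
  have h3 : ∀ j ∈ range J, ∑ x ∈ range X, wsT E' F (x + j * L) L ≤ ε / 8 * L * ((2 * X : ℕ) : ℝ) := by
    intro j hj
    rw [mem_range] at hj
    have e : ∑ x ∈ range X, wsT E' F (x + j * L) L = ∑ x ∈ (range X).image (fun x => x + j * L), wsT E' F x L := by
      rw [sum_image fun a _ b _ hab => by omega]
    have hjL : j * L ≤ H := (Nat.mul_le_mul_right L hj.le).trans hJ1
    have hLX : L ≤ 2 * X := by
      have hXr : (H : ℝ) ≤ X := by exact_mod_cast hX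
      have : (L : ℝ) ≤ X := by nlinarith
      have h5 : L ≤ X := by exact_mod_cast this
      omega
    refine le_trans ?_ (h1 (2 * X) L (by omega) hLX E' hE')
    rw [e]
    apply sum_le_sum_of_subset_of_nonneg
    · intro x hx
      simp only [mem_image, mem_range] at hx ⊢
      obtain ⟨k, hk, rfl⟩ := hx
      omega
    · intro x _ _; exact wsT_nonneg _ _ _ _
  calc ∑ x ∈ range X, wsT E F x H ≤ ∑ x ∈ range X, (∑ j ∈ range J, wsT E' F (x + j * L) L + ε / 2 * H) :=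
        sum_le_sum fun x _ => h2 x
    _ = ∑ j ∈ range J, ∑ x ∈ range X, wsT E' F (x + j * L) L + X * (ε / 2 * H) := by
        rw [sum_add_distrib, sum_comm, sum_const, card_range, nsmul_eq_mul]
    _ ≤ ∑ j ∈ range J, ε / 8 * L * ((2 * X : ℕ) : ℝ) + X * (ε / 2 * H) := add_le_add (sum_le_sum h3) le_rfl
    _ = ε / 4 * (J * L) * X + ε / 2 * H * X := by
        rw [sum_const, card_range, nsmul_eq_mul]
        push_cast; ring
    _ ≤ ε / 4 * H * X + ε / 2 * H * X := by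
        have hX0 : (0 : ℝ) ≤ X := Nat.cast_nonneg X
        apply add_le_add _ le_rfl
        apply mul_le_mul_of_nonneg_right _ hX0
        exact mul_le_mul_of_nonneg_left hJ1r (by positivity)
    _ ≤ ε * H * X := by
        have : (0 : ℝ) ≤ ε * H * X := by positivity
        linarith

end Pool.Agent.TH823.SF
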